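import Pool.Agent.Helper20.EP.Spec3

/-!
# EP, part DIVC: divisibility of the integer part in a cell, from RUNS
-/

set_option autoImplicit false

open Polynomial Filter Topology

namespace Pool.Agent.Helper1.EP

open Pool.Agent.Helper20.EP

/-- Counting with the Chinese remainder theorem. -/
lemma crt_count {m p : ℕ} (hc : m.Coprime p) (hm : 0 < m) (hp : 0 < p) (A B : ℕ → Prop)
    [DecidablePred A] [DecidablePred B] (hA : ∀ r, A (r % m) ↔ A r) (hB : ∀ r, B (r % p) ↔ B r) :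
    ((Finset.range (m * p)).filter (fun r => A r ∧ B r)).card =
      ((Finset.range m).filter A).card * ((Finset.range p).filter B).card := by
  rw [← Finset.card_product]
  have key1 : ∀ a b : ℕ, ((Nat.chineseRemainder hc a b : ℕ) % m) = a % m := fun a b =>
    (Nat.chineseRemainder hc a b).2.1
  have key2 : ∀ a b : ℕ, ((Nat.chineseRemainder hc a b : ℕ) % p) = b % p := fun a b =>
    (Nat.chineseRemainder hc a b).2.2
  refine Finset.card_nbij' (fun r => (r % m, r % p))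
    (fun x => (Nat.chineseRemainder hc x.1 x.2 : ℕ)) ?_ ?_ ?_ ?_
  · intro r hr
    have hr' := Finset.mem_filter.mp (Finset.mem_coe.mp hr)
    refine Finset.mem_coe.mpr (Finset.mem_product.mpr ⟨Finset.mem_filter.mpr ⟨?_, ?_⟩,
      Finset.mem_filter.mpr ⟨?_, ?_⟩⟩)
    · exact Finset.mem_range.mpr (Nat.mod_lt _ hm)
    · exact (hA r).mpr hr'.2.1
    · exact Finset.mem_range.mpr (Nat.mod_lt _ hp)
    · exact (hB r).mpr hr'.2.2
  · intro x hx
    have hx' := Finset.mem_product.mp (Finset.mem_coe.mp hx)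
    have h1 := Finset.mem_filter.mp hx'.1
    have h2 := Finset.mem_filter.mp hx'.2
    refine Finset.mem_coe.mpr (Finset.mem_filter.mpr ⟨?_, ?_, ?_⟩)
    · exact Finset.mem_range.mpr (Nat.chineseRemainder_lt_mul hc x.1 x.2 hm.ne' hp.ne')
    · rw [← hA, key1, hA]
      exact h1.2
    · rw [← hB, key2, hB]
      exact h2.2
  · intro r hr
    have hr' := Finset.mem_filter.mp (Finset.mem_coe.mp hr)
    have h1 : (Nat.chineseRemainder hc (r % m) (r % p) : ℕ) ≡ r [MOD m * p] := by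
      rw [← Nat.modEq_and_modEq_iff_modEq_mul hc]
      constructor
      · show _ % m = _ % m
        rw [key1, Nat.mod_mod]
      · show _ % p = _ % p
        rw [key2, Nat.mod_mod]
    have h2 := Nat.chineseRemainder_lt_mul hc (r % m) (r % p) hm.ne' hp.ne'
    have h3 := Finset.mem_range.mp hr'.1
    exact Nat.ModEq.eq_of_lt_of_lt h1 h2 h3
  · intro x hx
    have hx' := Finset.mem_product.mp (Finset.mem_coe.mp hx)
    have h1 := Finset.mem_range.mp (Finset.mem_filter.mp hx'.1).1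
    have h2 := Finset.mem_range.mp (Finset.mem_filter.mp hx'.2).1
    ext
    · show (Nat.chineseRemainder hc x.1 x.2 : ℕ) % m = x.1
      rw [key1, Nat.mod_eq_of_lt h1]
    · show (Nat.chineseRemainder hc x.1 x.2 : ℕ) % p = x.2
      rw [key2, Nat.mod_eq_of_lt h2]

lemma per (F : ℤ[X]) (s : ℤ) (m d : ℕ) (hd : d ∣ m) (r : ℕ) :
    ((d : ℤ) ∣ F.eval ((r % m : ℕ) : ℤ) - s) ↔ ((d : ℤ) ∣ F.eval (r : ℤ) - s) := by
  have h1 : (r : ℤ) - ((r % m : ℕ) : ℤ) ∣ F.eval (r : ℤ) - F.eval ((r % m : ℕ) : ℤ) :=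
    Polynomial.sub_dvd_eval_sub _ _ _
  have h2 : (m : ℤ) ∣ (r : ℤ) - ((r % m : ℕ) : ℤ) := by
    refine ⟨((r / m : ℕ) : ℤ), ?_⟩
    have := Nat.div_add_mod r m
    have h3 : (m : ℤ) * ((r / m : ℕ) : ℤ) + ((r % m : ℕ) : ℤ) = (r : ℤ) := by exact_mod_cast this
    linarith
  have h4 : (d : ℤ) ∣ F.eval (r : ℤ) - F.eval ((r % m : ℕ) : ℤ) :=
    (Int.natCast_dvd_natCast.mpr hd).trans (h2.trans h1)
  constructor
  · intro h
    have := dvd_add h h4
    have e : F.eval ((r % m : ℕ) : ℤ) - s + (F.eval (r : ℤ) - F.eval ((r % m : ℕ) : ℤ)) =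
      F.eval (r : ℤ) - s := by ring
    rwa [e] at this
  · intro h
    have := dvd_sub h h4
    have e : F.eval (r : ℤ) - s - (F.eval (r : ℤ) - F.eval ((r % m : ℕ) : ℤ)) =
      F.eval ((r % m : ℕ) : ℤ) - s := by ring
    rwa [e] at this

open Classical in
lemma count_roots (F : ℤ[X]) (s : ℤ) (q : ℕ) (hq : 1 ≤ q) (Q : Finset ℕ)
    (hQ : ∀ p ∈ Q, p.Prime ∧ ¬ p ∣ q) :
    ((Finset.range (q * ∏ p ∈ Q, p)).filter fun r : ℕ =>
      ((q : ℤ) ∣ F.eval (r : ℤ) - s) ∧ ∀ p ∈ Q, (p : ℤ) ∣ F.eval (r : ℤ) - s).card =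
    ((Finset.range q).filter fun r : ℕ => ((q : ℤ) ∣ F.eval (r : ℤ) - s)).card *
      ∏ p ∈ Q, rho (F - C s) p := by
  induction Q using Finset.induction_on with
  | empty => simp
  | insert p Q hp ih =>
    have hQ' : ∀ p ∈ Q, p.Prime ∧ ¬ p ∣ q := fun x hx => hQ x (Finset.mem_insert_of_mem hx)
    have hpp := hQ p (Finset.mem_insert_self _ _)
    have ih' := ih hQ'
    rw [Finset.prod_insert hp, Finset.prod_insert hp]
    have hcop : (q * ∏ p ∈ Q, p).Coprime p := by
      apply Nat.Coprime.mul_left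
      · exact (Nat.Coprime.symm ((Nat.Prime.coprime_iff_not_dvd hpp.1).mpr hpp.2))
      · apply Nat.Coprime.prod_left
        intro x hx
        refine (Nat.coprime_primes (hQ' x hx).1 hpp.1).mpr ?_
        rintro rfl
        exact hp hx
    have hm : 0 < q * ∏ p ∈ Q, p :=
      Nat.mul_pos (by omega) (Finset.prod_pos fun x hx => (hQ' x hx).1.pos)
    have c := crt_count hcop hm hpp.1.pos
      (fun r : ℕ => ((q : ℤ) ∣ F.eval (r : ℤ) - s) ∧ ∀ p ∈ Q, (p : ℤ) ∣ F.eval (r : ℤ) - s)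
      (fun r : ℕ => (p : ℤ) ∣ F.eval (r : ℤ) - s)
      (by
        intro r
        refine and_congr (per F s _ q (Dvd.intro _ rfl) r) ?_
        refine forall_congr' fun x => forall_congr' fun hx => ?_
        exact per F s _ x ((Finset.dvd_prod_of_mem (fun p => p) hx).trans (Dvd.intro_left _ rfl)) r)
      (by
        intro r
        exact per F s _ p dvd_rfl r)
    have e1 : q * (p * ∏ p ∈ Q, p) = (q * ∏ p ∈ Q, p) * p := by ring
    rw [e1]
    have e2 : ((Finset.range ((q * ∏ p ∈ Q, p) * p)).filter fun r : ℕ =>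
        ((q : ℤ) ∣ F.eval (r : ℤ) - s) ∧ ∀ x ∈ insert p Q, (x : ℤ) ∣ F.eval (r : ℤ) - s) =
        ((Finset.range ((q * ∏ p ∈ Q, p) * p)).filter fun r : ℕ =>
        (((q : ℤ) ∣ F.eval (r : ℤ) - s) ∧ ∀ p ∈ Q, (p : ℤ) ∣ F.eval (r : ℤ) - s) ∧
          (p : ℤ) ∣ F.eval (r : ℤ) - s) := by
      apply Finset.filter_congr
      intro r _
      rw [Finset.forall_mem_insert]
      tauto
    rw [e2, c, ih']
    have e3 : ((Finset.range p).filter fun r : ℕ => (p : ℤ) ∣ F.eval (r : ℤ) - s).card =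
        rho (F - C s) p := by
      unfold rho
      congr 1
      apply Finset.filter_congr
      intro r _
      rw [Polynomial.eval_sub, Polynomial.eval_C]
    rw [e3]
    ring

/-- membership in the cell -/
lemma sn_iff (f : ℝ[X]) (q : ℕ) (F : ℤ[X]) (s : ℤ) (hq : 1 ≤ q) (n : ℕ) :
    sn f q F n = s ↔ (-(s : ℝ) / q ≤ (th f q F).eval (n : ℝ) ∧
      (th f q F).eval (n : ℝ) < 1 - (s : ℝ) / q) ∧ (q : ℤ) ∣ F.eval (n : ℤ) - s := by
  have hq0 : (0 : ℝ) < q := by exact_mod_cast hq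
  have hq0' := hq0.ne'
  have e : (th f q F).eval (n : ℝ) = f.eval (n : ℝ) - ((F.eval (n : ℤ) : ℤ) : ℝ) / q := by
    unfold th
    rw [Polynomial.eval_sub, Polynomial.eval_mul, Polynomial.eval_C]
    have : (F.map (Int.castRingHom ℝ)).eval (n : ℝ) = ((F.eval (n : ℤ) : ℤ) : ℝ) := by
      simp
    rw [this]
    ring
  rw [e]
  unfold sn
  constructor
  · intro h
    have hs : (s : ℝ) = ((F.eval (n : ℤ) : ℤ) : ℝ) - q * (⌊f.eval (n : ℝ)⌋ : ℝ) := by
      rw [← h]
      push_cast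
      ring
    refine ⟨⟨?_, ?_⟩, ⟨⌊f.eval (n : ℝ)⌋, by rw [← h]; ring⟩⟩
    · rw [hs]
      have := Int.floor_le (f.eval (n : ℝ))
      have e2 : -(((F.eval (n : ℤ) : ℤ) : ℝ) - q * (⌊f.eval (n : ℝ)⌋ : ℝ)) / q =
        (⌊f.eval (n : ℝ)⌋ : ℝ) - ((F.eval (n : ℤ) : ℤ) : ℝ) / q := by
        field_simp
        ring
      rw [e2]
      linarith
    · rw [hs]
      have := Int.lt_floor_add_one (f.eval (n : ℝ))
      have e2 : (((F.eval (n : ℤ) : ℤ) : ℝ) - q * (⌊f.eval (n : ℝ)⌋ : ℝ)) / q =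
        ((F.eval (n : ℤ) : ℤ) : ℝ) / q - (⌊f.eval (n : ℝ)⌋ : ℝ) := by
        field_simp
      rw [e2]
      linarith
  · rintro ⟨⟨h1, h2⟩, k, hk⟩
    have hk' : ((F.eval (n : ℤ) : ℤ) : ℝ) = s + q * k := by
      have : F.eval (n : ℤ) = s + q * k := by linarith
      rw [this]
      push_cast
      ring
    rw [hk'] at h1 h2
    have e1 : ((s : ℝ) + q * k) / q = s / q + k := by
      field_simp
    rw [e1] at h1 h2
    have e3 : -(s : ℝ) / q = -(s / q) := by ring
    rw [e3] at h1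
    have hfl : ⌊f.eval (n : ℝ)⌋ = k := by
      rw [Int.floor_eq_iff]
      constructor <;> linarith
    rw [hfl]
    linarith

theorem main (hR : S_RUNS) : S_DIVC := by
  classical
  intro f N q F s Q hq hF hQ
  set P := ∏ p ∈ Q, p with hP
  have hPpos : 0 < P := Finset.prod_pos fun x hx => (hQ x hx).1.pos
  have hq0 : (0 : ℝ) < q := by exact_mod_cast hq
  have hP0 : (0 : ℝ) < P := by exact_mod_cast hPpos
  have hP1 : (1 : ℝ) ≤ P := by exact_mod_cast hPpos
  set d := f.natDegree with hd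
  set θ := th f q F with hθ
  have hdeg : θ.natDegree ≤ d := by
    rw [hθ]
    unfold th
    refine (Polynomial.natDegree_sub_le _ _).trans (max_le le_rfl ?_)
    refine (Polynomial.natDegree_C_mul_le _ _).trans ?_
    exact (Polynomial.natDegree_map_le).trans hF
  set u := -(s : ℝ) / q with hu
  set v := 1 - (s : ℝ) / q with hv
  set R := (Finset.range q).filter fun r : ℕ => ((q : ℤ) ∣ F.eval (r : ℤ) - s) with hRdef
  set R' := (Finset.range (q * P)).filter fun r : ℕ =>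
      ((q : ℤ) ∣ F.eval (r : ℤ) - s) ∧ ∀ p ∈ Q, (p : ℤ) ∣ F.eval (r : ℤ) - s with hR'def
  have hcard : R'.card = R.card * ∏ p ∈ Q, rho (F - C s) p := count_roots F s q hq Q hQ
  set A := cnt N (fun n => u ≤ θ.eval (n : ℝ) ∧ θ.eval (n : ℝ) < v) with hA
  have r1 := hR d θ u v N q R hdeg hq (Finset.filter_subset _ _)
  have r2 := hR d θ u v N (q * P) R' hdeg (Nat.one_le_iff_ne_zero.mpr
    (Nat.mul_pos (by omega) hPpos).ne') (Finset.filter_subset _ _)
  have c1 : cnt N (fun n => u ≤ θ.eval (n : ℝ) ∧ θ.eval (n : ℝ) < v ∧ n % q ∈ R) =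
      ((cell f N q F s).card : ℝ) := by
    unfold cnt cell
    congr 2
    ext n
    simp only [Finset.mem_filter]
    refine and_congr_right fun _ => ?_
    rw [sn_iff f q F s hq n, hRdef, Finset.mem_filter, Finset.mem_range]
    rw [per F s q q dvd_rfl n]
    constructor
    · rintro ⟨h1, h2, _, h3⟩
      exact ⟨⟨h1, h2⟩, h3⟩
    · rintro ⟨⟨h1, h2⟩, h3⟩
      exact ⟨h1, h2, Nat.mod_lt _ (by omega), h3⟩
  have c2 : cnt N (fun n => u ≤ θ.eval (n : ℝ) ∧ θ.eval (n : ℝ) < v ∧ n % (q * P) ∈ R') =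
      (((cell f N q F s).filter fun n : ℕ => ∀ p ∈ Q, (p : ℤ) ∣ ⌊f.eval (n : ℝ)⌋).card : ℝ) := by
    unfold cnt cell
    rw [Finset.filter_filter]
    congr 2
    ext n
    simp only [Finset.mem_filter]
    refine and_congr_right fun _ => ?_
    rw [hR'def, Finset.mem_filter, Finset.mem_range]
    have e1 : ((q : ℤ) ∣ F.eval ((n % (q * P) : ℕ) : ℤ) - s) ↔ ((q : ℤ) ∣ F.eval (n : ℤ) - s) :=
      per F s (q * P) q (Dvd.intro _ rfl) n
    have e2 : (∀ p ∈ Q, (p : ℤ) ∣ F.eval ((n % (q * P) : ℕ) : ℤ) - s) ↔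
        ∀ p ∈ Q, (p : ℤ) ∣ F.eval (n : ℤ) - s := by
      refine forall_congr' fun x => forall_congr' fun hx => ?_
      exact per F s _ x ((Finset.dvd_prod_of_mem (fun p => p) hx).trans (Dvd.intro_left _ rfl)) n
    rw [e1, e2]
    have key : sn f q F n = s → ((∀ p ∈ Q, (p : ℤ) ∣ F.eval (n : ℤ) - s) ↔
        ∀ p ∈ Q, (p : ℤ) ∣ ⌊f.eval (n : ℝ)⌋) := by
      intro h
      have h' : F.eval (n : ℤ) - s = q * ⌊f.eval (n : ℝ)⌋ := by
        unfold sn at h
        linarith
      refine forall_congr' fun x => forall_congr' fun hx => ?_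
      rw [h']
      constructor
      · intro hdv
        have hxp := hQ x hx
        have hpr : Prime (x : ℤ) := Nat.prime_iff_prime_int.mp hxp.1
        rcases hpr.dvd_or_dvd hdv with h3 | h3
        · exact absurd (Int.natCast_dvd_natCast.mp h3) hxp.2
        · exact h3
      · intro h3
        exact Dvd.dvd.mul_left h3 _
    constructor
    · rintro ⟨h1, h2, _, h3, h4⟩
      have hs : sn f q F n = s := (sn_iff f q F s hq n).mpr ⟨⟨h1, h2⟩, h3⟩
      exact ⟨hs, (key hs).mp h4⟩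
    · rintro ⟨hs, h4⟩
      obtain ⟨⟨h1, h2⟩, h3⟩ := (sn_iff f q F s hq n).mp hs
      exact ⟨h1, h2, Nat.mod_lt _ (Nat.mul_pos (by omega) hPpos), h3, (key hs).mpr h4⟩
  rw [c1] at r1
  rw [c2] at r2
  set L := ∏ p ∈ Q, lam F s p with hL
  have hL0 : 0 ≤ L := Finset.prod_nonneg fun p _ => by unfold lam; positivity
  have hL1 : L ≤ 1 := by
    apply Finset.prod_le_one
    · intro p _
      unfold lam
      positivity
    · intro p hp
      unfold lam
      have hp0 : (0 : ℝ) < p := by exact_mod_cast (hQ p hp).1.pos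
      rw [div_le_one hp0]
      have : rho (F - C s) p ≤ p := by
        unfold rho
        exact (Finset.card_filter_le _ _).trans (by rw [Finset.card_range])
      exact_mod_cast this
  have hRq : (R.card : ℝ) ≤ q := by
    have : R.card ≤ q := (Finset.card_filter_le _ _).trans (by rw [Finset.card_range])
    exact_mod_cast this
  have hR'q : (R'.card : ℝ) ≤ q * P := by
    have : R'.card ≤ q * P := (Finset.card_filter_le _ _).trans (by rw [Finset.card_range])
    exact_mod_cast this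
  have hratio : (R'.card : ℝ) / ((q * P : ℕ) : ℝ) = (R.card : ℝ) / q * L := by
    rw [hcard, hL]
    unfold lam
    rw [Finset.prod_div_distrib]
    push_cast
    rw [hP]
    push_cast
    have : (∏ p ∈ Q, (p : ℝ)) ≠ 0 := by
      have h := hP0.ne'
      rw [hP] at h
      push_cast at h
      exact h
    field_simp
  rw [hratio] at r2
  have hPc : ∏ p ∈ Q, (p : ℝ) = (P : ℝ) := by
    rw [hP]
    push_cast
    rfl
  rw [hPc]
  have hd4 : (0 : ℝ) ≤ 4 * (d : ℝ) + 2 := by positivity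
  set a := (((cell f N q F s).filter fun n : ℕ => ∀ p ∈ Q, (p : ℤ) ∣ ⌊f.eval (n : ℝ)⌋).card : ℝ)
  set b := ((cell f N q F s).card : ℝ)
  have e : a - b * L = (a - (R.card : ℝ) / q * L * A) - L * (b - (R.card : ℝ) / q * A) := by ring
  rw [e]
  refine (abs_sub _ _).trans ?_
  rw [abs_mul, abs_of_nonneg hL0]
  have t1 : |a - (R.card : ℝ) / q * L * A| ≤ (4 * d + 2) * (q * P) :=
    r2.trans (mul_le_mul_of_nonneg_left hR'q hd4)
  have t2 : L * |b - (R.card : ℝ) / q * A| ≤ (4 * d + 2) * (q * P) := by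
    have t3 : |b - (R.card : ℝ) / q * A| ≤ (4 * d + 2) * q :=
      r1.trans (mul_le_mul_of_nonneg_left hRq hd4)
    have t4 : L * |b - (R.card : ℝ) / q * A| ≤ 1 * ((4 * d + 2) * q) :=
      mul_le_mul hL1 t3 (abs_nonneg _) zero_le_one
    have t5 : (4 * (d : ℝ) + 2) * q ≤ (4 * d + 2) * (q * P) := by
      apply mul_le_mul_of_nonneg_left _ hd4
      nlinarith
    linarith
  linarith

end Pool.Agent.Helper1.EP
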